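import Mathlib
import Pool.Agent.Q214.KZ.Main

/-!
MP_6f1842: the family of the Kazhdan subsets of `ℤ` and the family of the generating non-Kazhdan
subsets of `ℤ` are Borel in `{0,1}^ℤ` (in fact `Σ⁰₃` and `Π⁰₃` respectively).
-/

namespace Pool.Agent.Results.MP_6f1842_lc.KazhdanSetsBorel

open Filter Topology Q214.KZ
open scoped InnerProductSpace

/-- `Q ⊆ ℤ` is a Kazhdan set: there is `ε > 0` such that every unitary operator `U` of a complex
Hilbert space which has a unit vector `x` with `sup_{n ∈ Q} ‖U^n x - x‖ < ε` has a nonzero fixed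
vector. -/
def IsKazhdan (Q : Set ℤ) : Prop :=
  ∃ ε : ℝ, 0 < ε ∧ ∀ (H : Type) [NormedAddCommGroup H] [InnerProductSpace ℂ H] [CompleteSpace H]
    (U : H ≃ₗᵢ[ℂ] H) (x : H), ‖x‖ = 1 → (⨆ n : Q, ‖(U ^ (n : ℤ)) x - x‖) < ε →
      ∃ y : H, y ≠ 0 ∧ U y = y

/-- `Q` generates `ℤ` -/
def IsGenerating (Q : Set ℤ) : Prop := AddSubgroup.closure Q = ⊤

/-- the family of the Kazhdan sets, in `{0,1}^ℤ` -/
def K : Set (ℤ → Bool) := {q | IsKazhdan {n | q n = true}}

/-- the family of the generating sets which are not Kazhdan, in `{0,1}^ℤ` -/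
def NotK₀ : Set (ℤ → Bool) := {q | IsGenerating {n | q n = true} ∧ ¬ IsKazhdan {n | q n = true}}

/-- the key equivalence -/
theorem not_kazhdan_iff (q : ℤ → Bool) :
    ¬ IsKazhdan {n | q n = true} ↔ ∀ k : ℕ, ∃ N : ℕ, q ∈ E k N := by
  constructor
  · intro h k
    have hk : (0 : ℝ) < 1 / ((k : ℝ) + 1) := by positivity
    have h1 : ∃ (H : Type) (_ : NormedAddCommGroup H) (_ : InnerProductSpace ℂ H)
        (_ : CompleteSpace H) (U : H ≃ₗᵢ[ℂ] H) (x : H), ‖x‖ = 1 ∧
        (⨆ n : {n | q n = true}, ‖(U ^ (n : ℤ)) x - x‖) < 1 / ((k : ℝ) + 1) ∧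
        ∀ y : H, U y = y → y = 0 := by
      by_contra hc
      apply h
      refine ⟨1 / ((k : ℝ) + 1), hk, ?_⟩
      intro H _ _ _ U x hx hs
      by_contra hno
      push Not at hno
      exact hc ⟨H, _, _, ‹_›, U, x, hx, hs, fun y hy => by
        by_contra hy0
        exact hno y hy0 hy⟩
    obtain ⟨H, _, _, _, U, x, hx, hs, hU⟩ := h1
    obtain ⟨N, hN0, hN⟩ := exists_avg U hU x
    obtain ⟨N, rfl⟩ := Nat.exists_eq_succ_of_ne_zero hN0.ne'
    refine ⟨N, fun n => ⟪x, (U ^ n) x⟫_ℂ, mem_PD U x hx, fun n hn => ?_, ?_⟩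
    · rw [← norm_sub_sq' U hx n]
      apply pow_le_pow_left₀ (norm_nonneg _)
      refine le_trans ?_ hs.le
      have hb : BddAbove (Set.range fun n : {n | q n = true} => ‖(U ^ (n : ℤ)) x - x‖) := by
        refine ⟨2, ?_⟩
        rintro _ ⟨n, rfl⟩
        refine (norm_sub_le _ _).trans ?_
        rw [LinearIsometryEquiv.norm_map, hx]
        norm_num
      exact le_ciSup hb ⟨n, hn⟩
    · rw [norm_sum_sq] at hN
      push_cast at hN
      exact hN
  · rintro h ⟨ε, hε, hK⟩
    obtain ⟨k, hk⟩ := exists_nat_one_div_lt (by positivity : 0 < ε / 2)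
    obtain ⟨N, φ, hφ, h1, h2⟩ := h k
    obtain ⟨H, _, _, _, U, x, hUx⟩ := gns hφ
    have hx : ‖x‖ = 1 := by
      have h3 := hUx 0
      rw [hφ.1, zpow_zero] at h3
      have h4 : ⟪x, x⟫_ℂ = 1 := h3
      have h5 : ‖x‖ ^ 2 = 1 := by
        rw [← inner_self_eq_norm_sq (𝕜 := ℂ), h4]
        exact Complex.one_re
      exact (pow_eq_one_iff_of_nonneg (norm_nonneg _) two_ne_zero).1 h5
    have hsum : ‖∑ i ∈ Finset.range (N + 1), (U ^ (i : ℤ)) x‖ ^ 2 ≤ ((N + 1 : ℕ) : ℝ) ^ 2 / 4 := by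
      rw [norm_sum_sq]
      simp only [hUx]
      push_cast
      exact h2
    obtain ⟨x', hx', hfix, hle⟩ := remove_fixed U hx (Nat.succ_pos N) hsum
    have : CompleteSpace ((fixed U)ᗮ : Submodule ℂ H) :=
      (Submodule.isClosed_orthogonal _).completeSpace_coe
    obtain ⟨y, hy0, hy⟩ := hK (fixed U)ᗮ (rest U) x' hx' (by
      refine lt_of_le_of_lt (Real.iSup_le (a := 2 * (1 / ((k : ℝ) + 1))) (fun n => ?_) (by positivity)) (by linarith)
      refine (hle n).trans (mul_le_mul_of_nonneg_left ?_ (by norm_num))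
      have h3 := h1 n n.2
      rw [← hUx, ← norm_sub_sq' U hx] at h3
      exact (sq_le_sq₀ (norm_nonneg _) (by positivity)).1 h3)
    exact hy0 (hfix y hy)

theorem compl_K : Kᶜ = ⋂ k : ℕ, ⋃ N : ℕ, E k N := by
  ext q
  rw [Set.mem_compl_iff, Set.mem_iInter]
  simp only [Set.mem_iUnion]
  exact not_kazhdan_iff q

/-- the generating sets form an open set -/
theorem isOpen_gen : IsOpen {q : ℤ → Bool | IsGenerating {n | q n = true}} := by
  rw [isOpen_iff_forall_mem_open]
  intro q hq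
  have h1 : (1 : ℤ) ∈ AddSubgroup.closure {n | q n = true} := by
    have : AddSubgroup.closure {n | q n = true} = ⊤ := hq
    rw [this]
    trivial
  obtain ⟨F, hF1, hF2⟩ : ∃ F : Finset ℤ, (F : Set ℤ) ⊆ {n | q n = true} ∧
      (1 : ℤ) ∈ AddSubgroup.closure (F : Set ℤ) := by
    have h2 : (1 : ℤ) ∈ Submodule.span ℤ {n | q n = true} := by
      rw [← Submodule.mem_toAddSubgroup, Submodule.span_int_eq_addSubgroupClosure]
      exact h1
    obtain ⟨F, hF1, hF2⟩ := Submodule.mem_span_finite_of_mem_span h2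
    refine ⟨F, hF1, ?_⟩
    rw [← Submodule.mem_toAddSubgroup, Submodule.span_int_eq_addSubgroupClosure] at hF2
    exact hF2
  refine ⟨⋂ n ∈ F, {q' : ℤ → Bool | q' n = true}, ?_, ?_, ?_⟩
  · intro q' hq'
    simp only [Set.mem_iInter] at hq'
    show AddSubgroup.closure {n | q' n = true} = ⊤
    have h3 : (1 : ℤ) ∈ AddSubgroup.closure {n | q' n = true} :=
      AddSubgroup.closure_mono (fun n hn => hq' n hn) hF2
    rw [AddSubgroup.eq_top_iff']
    intro m
    have := (AddSubgroup.closure {n | q' n = true}).zsmul_mem h3 m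
    simpa using this
  · refine isOpen_biInter_finset fun n _ => ?_
    exact (isOpen_discrete {true}).preimage (continuous_apply (A := fun _ : ℤ => Bool) n)
  · simp only [Set.mem_iInter]
    exact fun n hn => hF1 hn

/-- **MP_6f1842, Q1: Yes.** The family `𝒦` of the Kazhdan subsets of `ℤ` and the family `¬𝒦₀` of
the generating subsets of `ℤ` which are not Kazhdan are Borel subsets of `{0,1}^ℤ`. More exactly
the complement of `𝒦` is a countable intersection of countable unions of closed sets. -/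
theorem result :
    @MeasurableSet (ℤ → Bool) (borel (ℤ → Bool)) K ∧
    @MeasurableSet (ℤ → Bool) (borel (ℤ → Bool)) NotK₀ ∧
    ∃ F : ℕ → ℕ → Set (ℤ → Bool), (∀ k N, IsClosed (F k N)) ∧ Kᶜ = ⋂ k, ⋃ N, F k N := by
  have hb : @BorelSpace (ℤ → Bool) _ (borel _) := @BorelSpace.mk _ _ (borel _) rfl
  have h1 : @MeasurableSet (ℤ → Bool) (borel (ℤ → Bool)) Kᶜ := by
    rw [compl_K]
    refine @MeasurableSet.iInter _ _ (borel _) _ _ fun k =>
      @MeasurableSet.iUnion _ _ (borel _) _ _ fun N => ?_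
    have := (isClosed_E k N).isOpen_compl
    have h2 : @MeasurableSet (ℤ → Bool) (borel _) (E k N)ᶜ :=
      MeasurableSpace.measurableSet_generateFrom this
    have h3 := @MeasurableSet.compl _ _ (borel _) h2
    rwa [compl_compl] at h3
  have h2 : @MeasurableSet (ℤ → Bool) (borel (ℤ → Bool)) K := by
    have h3 := @MeasurableSet.compl _ _ (borel _) h1
    rwa [compl_compl] at h3
  refine ⟨h2, ?_, E, isClosed_E, compl_K⟩
  have h3 : NotK₀ = {q : ℤ → Bool | IsGenerating {n | q n = true}} ∩ Kᶜ := rfl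
  rw [h3]
  exact @MeasurableSet.inter _ (borel _) _ _
    (MeasurableSpace.measurableSet_generateFrom isOpen_gen) h1

end Pool.Agent.Results.MP_6f1842_lc.KazhdanSetsBorel
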